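import Pool.Agent.Helper48_PX.GAX
import Pool.Agent.Helper52_PX.FNS
import Pool.Agent.Helper22_PX.FNM
import Pool.Agent.Helper76_PX.FNX
import Pool.Agent.Helper64_PX.FNP
import Pool.Agent.Helper41_PX.DLX
import Pool.Agent.Helper32_PX.EUX
import Pool.Agent.Helper62_PX.VAX
import Pool.Agent.Helper58_PX.PIX
import Pool.Agent.Helper19_PX.DSX
import Pool.Agent.Helper26_PX.EPX
import Pool.Agent.Helper22_PX.PNX
import Pool.Agent.Helper79_PX.LOX
import Pool.Agent.Helper6_PX.FIX
import Pool.Agent.Helper41_PX.DFX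
import Pool.Agent.Helper86_PX.DDX
import Pool.Agent.Helper70_PX.DEX
import Pool.Agent.Helper20_PX.WWX
import Pool.Agent.Helper32_PX.REX
import Pool.Agent.Helper7_PX.BAX
import Pool.Agent.Helper14_PX.STX
import Pool.Agent.Helper9_PX.THX

/-!
# Squad PX: theorem PX (assembly of the rows)
-/

set_option autoImplicit false

namespace Pool.Agent.PX

theorem aGax : GaxStmt := H48.gax
theorem aFns : FnsStmt := H52.fns
theorem aFnm : FnmStmt := H22.fnm
theorem aFnx : FnxStmt := H76.fnx aFns aFnm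
theorem aFnp : FnpStmt := H64.fnp
theorem aDlx : DlxStmt := H41.dlx
theorem aEux : EuxStmt := H32.eux aFns aFnm aFnx aFnp aDlx
theorem aVax : VaxStmt := H62.vax
theorem aPix : PixStmt := H58.pix
theorem aDsx : DsxStmt := H19.dsx aPix aVax aEux aFnm
theorem aEpx : EpxStmt := H26.epx aPix
theorem aPnx : PnxStmt := H22.pnx aPix aEpx
theorem aLox : LoxStmt := H79.lox aDlx
theorem aFix : FixStmt := H6.fix aLox aPnx
theorem aDfx : DfxStmt := H41.dfx aDlx
theorem aDex : DexStmt := H70.dex aDfx H86.ddx aDlx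
theorem aWwx : WwxStmt := H20.wwx
theorem aRex : RexStmt := H32.rex aWwx
theorem aBax : BaxStmt := H7.bax aWwx
theorem aStx : StxStmt := H14.stx aFix aDsx aDex aRex aPix aGax aWwx

/-- Theorem PX. -/
theorem aThx : ThxStmt := H9.thx aStx aBax aWwx

end Pool.Agent.PX
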