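import Pool.Agent.PX.Defs
import Pool.Agent.Helper82_PW.Ord

/-!
# Squad PX, block 7: forms with bounded interaction, clusters
-/

set_option autoImplicit false

namespace Pool.Agent.PX

open MvPolynomial

/-- Forms: polynomials in `x_0, ..., x_(n-1)`, of any degree, in which every variable interacts with at
most `c` variables: `∂f / ∂x_i` contains at most `c` variables, for all `i`. -/
def IsForm {E : Type} [Field E] (c n : ℕ) (f : MvPolynomial ℕ E) : Prop :=
  f.vars ⊆ Finset.range n ∧ ∀ i, (pderiv i f).vars.card ≤ c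

/-- `T = f_1 ... f_N (a_1 / b_1 + ... + a_M / b_M)` with arbitrary `N`, `M`, forms `f_v`, products `b_t`
of `c` nonzero forms and polynomials `a_t` all of whose monomials have at most `c` variables. -/
def IsCl (E : Type) [Field E] (c n : ℕ) (T : MvPolynomial ℕ E) : Prop :=
  ∃ (N M : ℕ) (f : Fin N → MvPolynomial ℕ E) (a : Fin M → MvPolynomial ℕ E)
    (b : Fin M → Fin c → MvPolynomial ℕ E),
    (∀ v, IsForm c n (f v)) ∧
    (∀ t, (a t).vars ⊆ Finset.range n ∧ ∀ s ∈ (a t).support, s.support.card ≤ c) ∧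
    (∀ t l, IsForm c n (b t l) ∧ b t l ≠ 0) ∧
    T * ∏ t, ∏ l, b t l = (∏ v, f v) * ∑ t, a t * ∏ t' ∈ Finset.univ.erase t, ∏ l, b t' l

/-- `F = C(T_1, ..., T_m)` with an arbitrary polynomial `C` and clusters `T_i`, at most `k` of which are
algebraically independent. -/
def IsPC (E : Type) [Field E] (k c n : ℕ) (F : MvPolynomial ℕ E) : Prop :=
  ∃ (m : ℕ) (T : Fin m → MvPolynomial ℕ E) (C : MvPolynomial (Fin m) E),
    (∀ i, IsCl E c n (T i)) ∧
    (∀ s : Finset (Fin m), AlgebraicIndependent E (fun i : s => T i) → s.card ≤ k) ∧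
    F = aeval T C

end Pool.Agent.PX

namespace Pool.Agent.PX.H82

open MvPolynomial Pool.Agent.PX
open Pool.Agent.PW.H82 (OG)

variable {E : Type} [Field E]

theorem isForm_vars {c n : ℕ} {f : MvPolynomial ℕ E} (hf : IsForm c n f) :
    f.vars ⊆ Finset.range n := hf.1

theorem isForm_const {c n : ℕ} (e : E) : IsForm c n (C e : MvPolynomial ℕ E) :=
  ⟨by simp, fun i => by simp⟩

theorem isLo_of_isForm {c n : ℕ} {f : MvPolynomial ℕ E} (hf : IsForm c n f) : IsLo c f := hf.2

/-- In characteristic zero the monomials of a form contain at most `c + 1` variables. -/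
theorem og_isForm [CharZero E] {c n : ℕ} {f : MvPolynomial ℕ E} (hf : IsForm c n f) :
    OG (c + 1) ∅ f := by
  classical
  intro s hs
  rw [Finset.sdiff_empty]
  by_cases h0 : s.support = ∅
  · rw [h0]
    simp
  obtain ⟨i, hi⟩ := Finset.nonempty_iff_ne_empty.2 h0
  have hsi : s i ≠ 0 := Finsupp.mem_support_iff.1 hi
  have h2 : s - Finsupp.single i 1 + Finsupp.single i 1 = s := by
    apply tsub_add_cancel_of_le
    rw [Finsupp.single_le_iff]
    omega
  have h3 : s - Finsupp.single i 1 ∈ (pderiv i f).support := by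
    rw [mem_support_iff, coeff_pderiv, h2]
    exact mul_ne_zero (mem_support_iff.1 hs) (Nat.cast_add_one_ne_zero _)
  have h4 : s.support.erase i ⊆ (pderiv i f).vars := by
    intro j hj
    rw [Finset.mem_erase] at hj
    refine (mem_vars_iff_mem_support j).2 ⟨_, h3, ?_⟩
    rw [Finsupp.mem_support_iff, Finsupp.tsub_apply, Finsupp.single_eq_of_ne hj.1]
    simpa using Finsupp.mem_support_iff.1 hj.2
  have h5 := (Finset.card_le_card h4).trans (hf.2 i)
  rw [Finset.card_erase_of_mem hi] at h5
  omega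

end Pool.Agent.PX.H82
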