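import Pool.Agent.Helper82_PX.Cls
import Pool.Agent.Helper82_PW.Clu

/-!
# Squad PX, block 7: the Jacobian determinant of a composition of clusters
-/

set_option autoImplicit false

namespace Pool.Agent.PX.H82

open MvPolynomial Pool.Agent.PX
open Pool.Agent.PW (dd JUN RR FG)
open Pool.Agent.PW.H82 (OG og_mono og_zero og_C og_add og_neg og_sum og_mul og_prod og_pderiv fg_of_og
  rr_io EU nn dl dl_length dl_mem nn_og entry')
open Pool.Agent.RS (FF io io_injective total numer Phi)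
open Pool.Agent.RS.H58C (KIdx det_expand enu ede entry)

variable {E : Type} [Field E]

/-- The Jacobian determinant of a composition of clusters. -/
theorem jac [CharZero E]
    (hdd : ∀ (i : ℕ) (f : MvPolynomial ℕ E), dd i (io E f) = io E (pderiv i f))
    (k c n : ℕ) (F : MvPolynomial ℕ E) (hF : IsPC E k c n F) (hF0 : F ≠ 0) :
    ∃ (J₁ : Finset ℕ) (Num Den : MvPolynomial ℕ E) (Hs : Finset (MvPolynomial ℕ E)),
      J₁.card ≤ k ∧ Num ≠ 0 ∧ (∀ h ∈ Hs, h ≠ 0 ∧ IsForm c n h) ∧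
      (∃ L : List (MvPolynomial ℕ E), (∀ h ∈ L, h ∈ Hs) ∧ Den = L.prod) ∧
      io E Num / io E Den ∈ WW E c (k * (c + 1)) (k * (c + 1 + (c + 1))) ∧
      ∀ (J : Finset ℕ) (ζ : ℕ → E), J₁ ⊆ J → Phi J ζ Num ≠ 0 → (∀ h ∈ Hs, Phi J ζ h ≠ 0) →
        Phi J ζ F ≠ 0 := by
  classical
  obtain ⟨m, T, C, hT, hk, hFC⟩ := hF
  choose N M f a b hf ha hb hTf using hT
  obtain ⟨ρ, s, j, hρ, hdet, hfaith⟩ := RS.H82.fai E m k T hk
  -- the factors are not zero
  have hT0 : ∀ l, T (s l) ≠ 0 := by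
    intro l h
    apply hdet
    apply Matrix.det_eq_zero_of_column_eq_zero l
    intro i
    rw [Matrix.of_apply, h, map_zero]
  have hb0 : ∀ l t u, b (s l) t u ≠ 0 := fun l t u => (hb (s l) t u).2
  have hf0 : ∀ l v, f (s l) v ≠ 0 := by
    intro l v h
    have h1 : T (s l) * ∏ t, ∏ u, b (s l) t u ≠ 0 :=
      mul_ne_zero (hT0 l) (Finset.prod_ne_zero_iff.2 fun t _ =>
        Finset.prod_ne_zero_iff.2 fun u _ => hb0 l t u)
    apply h1
    rw [hTf (s l), Finset.prod_eq_zero (Finset.mem_univ v) h, zero_mul]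
  let U : Fin ρ → Type := fun l => EU (N (s l)) (M (s l)) c
  let nu : ∀ l : Fin ρ, Fin ρ → U l → MvPolynomial ℕ E :=
    fun l i => nn (f (s l)) (a (s l)) (b (s l)) (j i)
  let dli : ∀ l : Fin ρ, U l → List (MvPolynomial ℕ E) := fun l => dl (f (s l)) (b (s l))
  let de : ∀ l : Fin ρ, U l → MvPolynomial ℕ E := fun l u => (dli l u).prod
  obtain ⟨De, hDe⟩ : ∃ De, De = (Matrix.of fun i l => pderiv (j i) (T (s l))).det := ⟨_, rfl⟩
  obtain ⟨A, hA⟩ : ∃ A : KIdx U → MvPolynomial ℕ E, A = fun t : KIdx U =>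
      ((Equiv.Perm.sign t.1 : ℤ) : MvPolynomial ℕ E) * ∏ l, nu l (t.1 l) (t.2 l) := ⟨_, rfl⟩
  obtain ⟨B, hB⟩ : ∃ B : KIdx U → MvPolynomial ℕ E, B = fun t : KIdx U =>
      ∏ l, de l (t.2 l) := ⟨_, rfl⟩
  obtain ⟨Lb, hLb⟩ : ∃ Lb : KIdx U → List (MvPolynomial ℕ E), Lb = fun t : KIdx U =>
      (List.ofFn fun l => dli l (t.2 l)).flatten := ⟨_, rfl⟩
  have hBL : ∀ t, B t = (Lb t).prod := by
    intro t
    rw [hB, hLb]
    show ∏ l, (dli l (t.2 l)).prod = _
    rw [List.prod_flatten, List.map_ofFn, List.prod_ofFn]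
    rfl
  have hj1 : io E De = io E (∏ l, ∏ v, f (s l) v) * total A B := by
    rw [hDe, hA, hB]
    refine det_expand U _ (fun l => ∏ v, f (s l) v) nu de ?_
    intro i l
    rw [Matrix.of_apply]
    exact entry' (T (s l)) (f (s l)) (a (s l)) (b (s l)) (hf0 l) (hb0 l)
      (hTf (s l)) (j i)
  -- the forms
  obtain ⟨Hs, hHs⟩ : ∃ Hs : Finset (MvPolynomial ℕ E), Hs =
    (Finset.univ.biUnion fun l : Fin ρ => Finset.univ.image fun v : Fin (N (s l)) =>
      f (s l) v) ∪ (Finset.univ.biUnion fun l : Fin ρ => Finset.univ.biUnion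
        fun t : Fin (M (s l)) => Finset.univ.image fun v : Fin c => b (s l) t v) := ⟨_, rfl⟩
  have hfH : ∀ l v, f (s l) v ∈ Hs := by
    intro l v
    rw [hHs]
    exact Finset.mem_union_left _ (Finset.mem_biUnion.2 ⟨l, Finset.mem_univ l,
      Finset.mem_image_of_mem _ (Finset.mem_univ v)⟩)
  have hbH : ∀ l t v, b (s l) t v ∈ Hs := by
    intro l t v
    rw [hHs]
    exact Finset.mem_union_right _ (Finset.mem_biUnion.2 ⟨l, Finset.mem_univ l,
      Finset.mem_biUnion.2 ⟨t, Finset.mem_univ t, Finset.mem_image_of_mem _ (Finset.mem_univ v)⟩⟩)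
  have hHf : ∀ h ∈ Hs, h ≠ 0 ∧ IsForm c n h := by
    intro h hh
    rw [hHs] at hh
    rcases Finset.mem_union.1 hh with h1 | h1
    · obtain ⟨l, -, h2⟩ := Finset.mem_biUnion.1 h1
      obtain ⟨v, -, rfl⟩ := Finset.mem_image.1 h2
      exact ⟨hf0 l v, hf (s l) v⟩
    · obtain ⟨l, -, h2⟩ := Finset.mem_biUnion.1 h1
      obtain ⟨t, -, h3⟩ := Finset.mem_biUnion.1 h2
      obtain ⟨v, -, rfl⟩ := Finset.mem_image.1 h3
      exact ⟨hb0 l t v, (hb (s l) t v).1⟩
  have hLbH : ∀ t, ∀ h ∈ Lb t, h ∈ Hs := by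
    intro t h hh
    rw [hLb] at hh
    obtain ⟨L, hL, hhL⟩ := List.mem_flatten.1 hh
    obtain ⟨l, rfl⟩ := List.mem_ofFn.1 hL
    exact dl_mem (fun g => g ∈ Hs) (f (s l)) (b (s l)) (hfH l) (hbH l) (t.2 l) h hhL
  have hLbl : ∀ t, (Lb t).length ≤ k * (c + 1) := by
    intro t
    rw [hLb]
    show (List.ofFn fun l => dli l (t.2 l)).flatten.length ≤ _
    rw [List.length_flatten, List.map_ofFn, List.sum_ofFn]
    refine (Finset.sum_le_card_nsmul _ _ (c + 1) fun l _ => dl_length _ _ _).trans ?_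
    rw [Finset.card_univ, Fintype.card_fin, smul_eq_mul]
    exact Nat.mul_le_mul_right _ hρ
  have hB0 : ∀ t, B t ≠ 0 := by
    intro t
    rw [hBL]
    intro h
    rw [List.prod_eq_zero_iff] at h
    exact (hHf _ (hLbH t _ h)).1 rfl
  have hAo : ∀ t, OG (k * (c + 1 + (c + 1))) ∅ (A t) := by
    intro t
    rw [hA]
    show OG _ ∅ (((Equiv.Perm.sign t.1 : ℤ) : MvPolynomial ℕ E) * ∏ l, nu l (t.1 l) (t.2 l))
    have h1 : ((Equiv.Perm.sign t.1 : ℤ) : MvPolynomial ℕ E) =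
        MvPolynomial.C ((Equiv.Perm.sign t.1 : ℤ) : E) := by
      rw [map_intCast]
    rw [h1]
    have h2 : OG (0 + (Finset.univ : Finset (Fin ρ)).card * (c + 1 + (c + 1))) ∅
        (MvPolynomial.C ((Equiv.Perm.sign t.1 : ℤ) : E) * ∏ l, nu l (t.1 l) (t.2 l)) := by
      refine og_mul (og_C _) (og_prod _ _ fun l _ => ?_)
      refine nn_og (f (s l)) (a (s l)) (b (s l)) _ (fun v => og_isForm (hf (s l) v)) (fun u => ?_)
        (fun u v => og_isForm (hb (s l) u v).1) _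
      intro x hx
      rw [Finset.sdiff_empty]
      exact ((ha (s l) u).2 x hx).trans (Nat.le_succ c)
    refine og_mono ?_ h2
    rw [zero_add, Finset.card_univ, Fintype.card_fin]
    exact Nat.mul_le_mul_right _ hρ
  obtain ⟨-, -, hn3⟩ := RS.H47.nmt (KIdx U)
  obtain ⟨htot, hiff⟩ := hn3 E A B hB0
  rw [← hDe] at hdet
  have hio : Function.Injective (io E) := io_injective
  have hioDe : io E De ≠ 0 := by
    intro h
    rw [← map_zero (io E)] at h
    exact hdet (hio h)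
  have htot0 : total A B ≠ 0 := by
    intro h
    rw [h, mul_zero] at hj1
    exact hioDe hj1
  have hnum0 : numer A B ≠ 0 := hiff.1 htot0
  have hbprod : ∏ t, B t ≠ 0 := Finset.prod_ne_zero_iff.2 fun t _ => hB0 t
  have hiob : io E (∏ t, B t) ≠ 0 := by
    intro h
    rw [← map_zero (io E)] at h
    exact hbprod (hio h)
  -- the identity in the ring of polynomials
  have hid : De * ∏ t, B t = (∏ l, ∏ v, f (s l) v) * numer A B := by
    apply hio
    rw [map_mul, map_mul, hj1, htot, mul_assoc, div_mul_cancel₀ _ hiob]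
  refine ⟨Finset.univ.image j, numer A B, ∏ t, B t, Hs, ?_, hnum0, hHf, ?_, ?_, ?_⟩
  · refine Finset.card_image_le.trans ?_
    rw [Finset.card_univ, Fintype.card_fin]
    exact hρ
  · refine ⟨(Finset.univ.toList.map Lb).flatten, ?_, ?_⟩
    · intro h hh
      obtain ⟨L, hL, hhL⟩ := List.mem_flatten.1 hh
      obtain ⟨t, -, rfl⟩ := List.mem_map.1 hL
      exact hLbH t h hhL
    · rw [List.prod_flatten, List.map_map, Finset.prod_congr rfl fun t _ => hBL t]
      rw [← Finset.prod_map_toList]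
      rfl
  · rw [← htot]
    unfold total
    refine Submodule.sum_mem _ fun t _ => Submodule.subset_span ?_
    refine ⟨io E (A t), Lb t, rr_io _ _, fg_of_og hdd _ _ _ (hAo t), hLbl t, ?_, ?_⟩
    · intro g hg
      obtain ⟨h1, h2⟩ := hHf g (hLbH t g hg)
      exact ⟨h1, isLo_of_isForm h2⟩
    · rw [hBL]
  · intro J ζ hJ hnum hζ
    have hjJ : ∀ i, j i ∈ J := fun i => hJ (Finset.mem_image_of_mem _ (Finset.mem_univ i))
    have hDeΦ : Phi J ζ De ≠ 0 := by
      intro h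
      have h1 := congrArg (Phi J ζ) hid
      rw [map_mul, h, zero_mul, map_mul] at h1
      have h2 : Phi J ζ (∏ l, ∏ v, f (s l) v) ≠ 0 := by
        rw [map_prod]
        refine Finset.prod_ne_zero_iff.2 fun l _ => ?_
        rw [map_prod]
        exact Finset.prod_ne_zero_iff.2 fun v _ => hζ _ (hfH l v)
      exact mul_ne_zero h2 hnum h1.symm
    rw [hFC]
    apply hfaith (Phi J ζ) C
    · have h1 : (Matrix.of fun i l => pderiv (j i) (Phi J ζ (T (s l)))).det = Phi J ζ De := by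
        rw [hDe, AlgHom.map_det]
        congr 1
        ext i l : 2
        rw [Matrix.of_apply, (RS.H82.phb E J ζ (T (s l))).2.2.2 (j i) (hjJ i)]
        rfl
      rw [h1]
      exact hDeΦ
    · rw [← hFC]
      exact hF0

end Pool.Agent.PX.H82
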