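import Pool.Agent.PX.Stmts
import Pool.Agent.Helper82_PW.Hit
import Pool.Agent.Helper82_PX.Jac

/-!
# Squad PX, block 7: the hitting set for compositions of clusters of forms
-/

set_option autoImplicit false

namespace Pool.Agent.PX.H82

open MvPolynomial Pool.Agent.PX
open Pool.Agent.PW (dd JUN RR FG Ph Zer Free genZ kee)
open Pool.Agent.PW.H82 (OG ph_ne ph_ne_mono map_ph)
open Pool.Agent.RS (FF io io_injective Phi)

variable {E : Type} [Field E]

/-- The polynomials of the class are polynomials in the first `n` variables. -/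
theorem cl_vars {c n : ℕ} {T : MvPolynomial ℕ E} (h : IsCl E c n T) :
    T.vars ⊆ Finset.range n := by
  classical
  obtain ⟨N, M, f, a, b, hf, ha, hbf, hT⟩ := h
  by_cases hT0 : T = 0
  · rw [hT0]
    simp
  intro i hi
  rw [Finset.mem_range]
  by_contra hin
  have hb : ∏ t, ∏ l, b t l ≠ 0 := Finset.prod_ne_zero_iff.2 fun t _ =>
    Finset.prod_ne_zero_iff.2 fun l _ => (hbf t l).2
  have hs : ∀ p : MvPolynomial ℕ E, p.vars ⊆ Finset.range n → p ∈ supported E {i : ℕ | i < n} := by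
    intro p hp
    rw [mem_supported]
    intro j hj
    exact Finset.mem_range.1 (hp hj)
  have h1 : (∏ v, f v) * ∑ t, a t * ∏ t' ∈ Finset.univ.erase t, ∏ l, b t' l ∈
      supported E {i : ℕ | i < n} := by
    refine Subalgebra.mul_mem _ (Subalgebra.prod_mem _ fun v _ => hs _ (isForm_vars (hf v))) ?_
    refine Subalgebra.sum_mem _ fun t _ => Subalgebra.mul_mem _ (hs _ (ha t).1) ?_
    exact Subalgebra.prod_mem _ fun t' _ => Subalgebra.prod_mem _ fun l _ =>
      hs _ (isForm_vars (hbf t' l).1)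
  rw [← hT, mem_supported] at h1
  have h2 : i ∈ (T * ∏ t, ∏ l, b t l).vars := by
    rw [mem_vars_iff_degreeOf_ne_zero] at hi ⊢
    rw [degreeOf_mul_eq hT0 hb]
    omega
  exact hin (h1 h2)

theorem pc_vars {k c n : ℕ} {F : MvPolynomial ℕ E}
    (hF : IsPC E k c n F) : ∀ i ∈ F.vars, i < n := by
  obtain ⟨m, T, C, hT, -, rfl⟩ := hF
  have h1 : ∀ i, T i ∈ supported E {i : ℕ | i < n} := by
    intro i
    rw [mem_supported]
    intro j hj
    exact Finset.mem_range.1 (cl_vars (hT i) hj)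
  have h2 : aeval T C ∈ Algebra.adjoin E (Set.range T) := by
    rw [Algebra.adjoin_range_eq_range_aeval]
    exact ⟨C, rfl⟩
  have h3 : aeval T C ∈ supported E {i : ℕ | i < n} := by
    refine Algebra.adjoin_le ?_ h2
    rintro _ ⟨i, rfl⟩
    exact h1 i
  rw [mem_supported] at h3
  intro i hi
  exact h3 hi

/-- The hitting set for one nonzero polynomial of the class; the number of blocks does not depend on
the field. -/
theorem hit (thx : ThxStmt) (k c : ℕ) : ∃ t0 : ℕ,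
    ∀ (E : Type) [Field E] [CharZero E] (n t : ℕ), t0 ≤ t → ∀ F : MvPolynomial ℕ E,
      IsPC E k c n F → F ≠ 0 → ∃ w z : Fin t → E, eval (Pool.Agent.UO.point n w z) F ≠ 0 := by
  classical
  obtain ⟨r, m, hP⟩ := thx c (k * (c + 1)) (k * (c + 1 + (c + 1)))
  obtain ⟨m', hm'⟩ : ∃ m', m' = max m (c + 1) := ⟨_, rfl⟩
  refine ⟨m' + (r + k), ?_⟩
  intro E _ _ n t ht F hF hF0
  obtain ⟨J₁, Num, Den, Hs, hJ₁, hNum, hHs, ⟨L, hL, hDen⟩, hW, hspec⟩ :=
    jac (fun i f => (PW.aDer E).1 i f) k c n F hF hF0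
  let D := MvPolynomial (Fin m' ⊕ Fin m' ⊕ ℕ) E
  let ζ : ℕ → D := genZ E m' n
  have hfm : Free E m ζ := PW.aGnf E m' n m (by rw [hm']; exact le_max_left _ _)
  have hfc : Free E (c + 1) ζ := PW.aGnf E m' n (c + 1) (by rw [hm']; exact le_max_right _ _)
  have hform : ∀ (J : Finset ℕ), ∀ h ∈ Hs, Ph ζ J h ≠ 0 := fun J h hh =>
    ph_ne (c + 1) ζ hfc J h (hHs h hh).1 (og_isForm (hHs h hh).2)
  have hne : ∀ p : MvPolynomial ℕ E, p ≠ 0 → io E p ≠ 0 := by
    intro p hp h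
    rw [← map_zero (io E)] at h
    exact hp (io_injective h)
  have hDen0 : Den ≠ 0 := by
    rw [hDen]
    intro h
    rw [List.prod_eq_zero_iff] at h
    exact (hHs _ (hL _ h)).1 rfl
  have hDenP : ∀ J, Ph ζ J Den ≠ 0 := by
    intro J
    rw [hDen, map_list_prod]
    intro h
    rw [List.prod_eq_zero_iff] at h
    obtain ⟨g, hg, hg0⟩ := List.mem_map.1 h
    exact hform J g (hL g hg) hg0
  have hW0 : io E Num / io E Den ≠ 0 := div_ne_zero (hne _ hNum) (hne _ hDen0)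
  obtain ⟨J₀, hJ₀, hzer⟩ : ∃ J₀ : Finset ℕ, J₀.card ≤ r ∧ ¬ Zer ζ J₀ (io E Num / io E Den) := by
    by_contra hcon
    push Not at hcon
    exact hW0 (hP E D ζ hfm _ hW hcon)
  have hNumP : Ph ζ J₀ Num ≠ 0 := fun h => hzer ⟨Num, Den, rfl, hDenP J₀, h⟩
  obtain ⟨J, hJ⟩ : ∃ J, J = J₀ ∪ J₁ := ⟨_, rfl⟩
  have hJc : J.card ≤ r + k := by
    rw [hJ]
    exact (Finset.card_union_le _ _).trans (Nat.add_le_add hJ₀ hJ₁)
  have hNumJ : Ph ζ J Num ≠ 0 := ph_ne_mono ζ (hJ ▸ Finset.subset_union_left) Num hNumP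
  have hPne : Ph ζ J Num * ∏ h ∈ Hs, Ph ζ J h ≠ 0 :=
    mul_ne_zero hNumJ (Finset.prod_ne_zero_iff.2 fun h hh => hform J h hh)
  obtain ⟨s, hs⟩ := support_nonempty.2 hPne
  rw [mem_support_iff] at hs
  obtain ⟨v, hv⟩ := RS.H77.ex_ne _ hs
  let ev : D →ₐ[E] E := aeval v
  have hev : ∀ q : D, ev q = eval v q := fun q => by
    show aeval v q = _
    rw [aeval_eq_eval]
  have hmap : MvPolynomial.map (ev : D →+* E) (Ph ζ J Num * ∏ h ∈ Hs, Ph ζ J h) ≠ 0 := by
    intro h0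
    have h1 := congrArg (coeff s) h0
    rw [coeff_map, coeff_zero] at h1
    apply hv
    rw [← hev]
    exact h1
  rw [map_mul, map_prod] at hmap
  obtain ⟨ζ', hζ'⟩ : ∃ ζ' : ℕ → E, ζ' = fun i => ev (ζ i) := ⟨_, rfl⟩
  have hNum' : Phi J ζ' Num ≠ 0 := by
    rw [hζ', ← map_ph ζ J ev]
    exact left_ne_zero_of_mul hmap
  have hHs' : ∀ h ∈ Hs, Phi J ζ' h ≠ 0 := by
    intro h hh
    rw [hζ', ← map_ph ζ J ev]
    exact Finset.prod_ne_zero_iff.1 (right_ne_zero_of_mul hmap) h hh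
  have hG := hspec J ζ' (hJ ▸ Finset.subset_union_right) hNum' hHs'
  obtain ⟨y, hy⟩ := RS.H77.ex_ne _ hG
  obtain ⟨w, hw⟩ : ∃ w : Fin m' → E, w = fun j => v (Sum.inl j) := ⟨_, rfl⟩
  obtain ⟨z, hz⟩ : ∃ z : Fin m' → E, z = fun j => v (Sum.inr (Sum.inl j)) := ⟨_, rfl⟩
  have hζp : ∀ i < n, ζ' i = Pool.Agent.UO.point n w z i := by
    intro i hi
    rw [hζ', hw, hz]
    show ev (genZ E m' n i) = _
    rw [hev]
    unfold genZ Pool.Agent.UO.point
    rw [if_pos hi, if_pos hi]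
    simp only [map_sum, map_mul, map_prod, map_sub, eval_X, eval_C]
  obtain ⟨w', z', hp⟩ := RS.H25.fre E n m' t (J.filter (· < n)) w z y
    (fun j hj => (Finset.mem_filter.1 hj).2)
    (le_trans (Nat.add_le_add_left ((Finset.card_filter_le _ _).trans hJc) _) ht)
  refine ⟨w', z', ?_⟩
  have h1 : eval (Pool.Agent.UO.point n w' z') F = eval y (Phi J ζ' F) := by
    unfold Phi
    rw [RS.H77.eval_aeval]
    refine MvPolynomial.eval₂Hom_congr' rfl (fun i hi _ => ?_) rfl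
    have hin : i < n := pc_vars hF i hi
    rw [hp i]
    by_cases hiJ : i ∈ J
    · simp [hiJ, hin]
    · simp [hiJ, hζp i hin]
  rw [h1]
  exact hy

end Pool.Agent.PX.H82
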