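import Pool.Agent.Helper58_PX.Hub
import Pool.Agent.Helper82_PX.Hit
import Pool.Agent.Helper82_PX.Exa

/-!
# Squad PX, block 7: the class with hub variables
-/

set_option autoImplicit false

namespace Pool.Agent.PX.H82

open MvPolynomial Pool.Agent.PX
open Pool.Agent.PW.H82 (OG og_C exists_pad)

variable {E : Type} [Field E]

theorem isFormG_const {c n : ℕ} {G : Finset ℕ} (e : E) :
    IsFormG c n G (C e : MvPolynomial ℕ E) :=
  ⟨by simp, fun i _ => by simp⟩

theorem isForm_iff {c n : ℕ} {f : MvPolynomial ℕ E} : IsFormG c n ∅ f ↔ IsForm c n f := by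
  unfold IsFormG IsForm
  simp only [Finset.sdiff_empty, Finset.notMem_empty, not_false_eq_true, forall_const]

theorem isPC_of {k c n : ℕ} {F : MvPolynomial ℕ E} (h : IsPCG E k c n ∅ F) : IsPC E k c n F := by
  obtain ⟨m, T, Cc, hT, hk, hF⟩ := h
  refine ⟨m, T, Cc, fun i => ?_, hk, hF⟩
  obtain ⟨N, M, f, a, b, hf, ha, hb, hTe⟩ := hT i
  refine ⟨N, M, f, a, b, fun v => isForm_iff.1 (hf v), fun t => ⟨(ha t).1, fun s hs => ?_⟩,
    fun t l => ⟨isForm_iff.1 (hb t l).1, (hb t l).2⟩, hTe⟩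
  have h1 := (ha t).2 s hs
  rwa [Finset.sdiff_empty] at h1

/-- The polynomials of the class are polynomials in the first `n` variables. -/
theorem clG_vars {c n : ℕ} {G : Finset ℕ} {T : MvPolynomial ℕ E} (h : IsClG E c n G T) :
    T.vars ⊆ Finset.range n := by
  classical
  obtain ⟨N, M, f, a, b, hf, ha, hbf, hT⟩ := h
  by_cases hT0 : T = 0
  · rw [hT0]
    simp
  intro i hi
  rw [Finset.mem_range]
  by_contra hin
  have hb : ∏ t, ∏ l, b t l ≠ 0 := Finset.prod_ne_zero_iff.2 fun t _ =>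
    Finset.prod_ne_zero_iff.2 fun l _ => (hbf t l).2
  have hs : ∀ p : MvPolynomial ℕ E, p.vars ⊆ Finset.range n → p ∈ supported E {i : ℕ | i < n} := by
    intro p hp
    rw [mem_supported]
    intro j hj
    exact Finset.mem_range.1 (hp hj)
  have h1 : (∏ v, f v) * ∑ t, a t * ∏ t' ∈ Finset.univ.erase t, ∏ l, b t' l ∈
      supported E {i : ℕ | i < n} := by
    refine Subalgebra.mul_mem _ (Subalgebra.prod_mem _ fun v _ => hs _ ((hf v).1)) ?_
    refine Subalgebra.sum_mem _ fun t _ => Subalgebra.mul_mem _ (hs _ (ha t).1) ?_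
    exact Subalgebra.prod_mem _ fun t' _ => Subalgebra.prod_mem _ fun l _ =>
      hs _ ((hbf t' l).1.1)
  rw [← hT, mem_supported] at h1
  have h2 : i ∈ (T * ∏ t, ∏ l, b t l).vars := by
    rw [mem_vars_iff_degreeOf_ne_zero] at hi ⊢
    rw [degreeOf_mul_eq hT0 hb]
    omega
  exact hin (h1 h2)

theorem pcG_vars {k c n : ℕ} {G : Finset ℕ} {F : MvPolynomial ℕ E}
    (hF : IsPCG E k c n G F) : ∀ i ∈ F.vars, i < n := by
  obtain ⟨m, T, C, hT, -, rfl⟩ := hF
  have h1 : ∀ i, T i ∈ supported E {i : ℕ | i < n} := by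
    intro i
    rw [mem_supported]
    intro j hj
    exact Finset.mem_range.1 (clG_vars (hT i) hj)
  have h2 : aeval T C ∈ Algebra.adjoin E (Set.range T) := by
    rw [Algebra.adjoin_range_eq_range_aeval]
    exact ⟨C, rfl⟩
  have h3 : aeval T C ∈ supported E {i : ℕ | i < n} := by
    refine Algebra.adjoin_le ?_ h2
    rintro _ ⟨i, rfl⟩
    exact h1 i
  rw [mem_supported] at h3
  intro i hi
  exact h3 hi

/-- Products which differ in few factors from one product form a cluster. -/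
theorem clG_near (c n N M : ℕ) (G : Finset ℕ)
    (f : Fin N → MvPolynomial ℕ E)
    (V : Fin M → Finset (Fin N)) (a : Fin M → MvPolynomial ℕ E)
    (hf : ∀ v, IsFormG c n G (f v))
    (hV : ∀ u, (V u).card ≤ c)
    (ha : ∀ u, (a u).vars ⊆ Finset.range n ∧ ∀ s ∈ (a u).support, (s.support \ G).card ≤ c) :
    IsClG E c n G (∑ u, a u * ∏ v ∈ (V u)ᶜ, f v) := by
  classical
  let f' : Fin N → MvPolynomial ℕ E := fun v => if f v = 0 then 1 else f v
  let a' : Fin M → MvPolynomial ℕ E := fun u => if ∃ v ∈ (V u)ᶜ, f v = 0 then 0 else a u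
  have h1f : IsFormG c n G (1 : MvPolynomial ℕ E) := by
    have h := isFormG_const (c := c) (n := n) (G := G) (1 : E)
    rwa [map_one] at h
  have hf0 : ∀ v, f' v ≠ 0 := by
    intro v
    simp only [f']
    split_ifs with h
    · exact one_ne_zero
    · exact h
  have hf' : ∀ v, IsFormG c n G (f' v) := by
    intro v
    simp only [f']
    split_ifs with h
    · exact h1f
    · exact hf v
  have ha' : ∀ u, (a' u).vars ⊆ Finset.range n ∧ ∀ s ∈ (a' u).support, (s.support \ G).card ≤ c := by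
    intro u
    simp only [a']
    split_ifs with h
    · simp
    · exact ha u
  have hterm : ∀ u, a u * ∏ v ∈ (V u)ᶜ, f v = a' u * ∏ v ∈ (V u)ᶜ, f' v := by
    intro u
    simp only [a']
    split_ifs with h
    · obtain ⟨v, hv, h0⟩ := h
      rw [Finset.prod_eq_zero hv h0, mul_zero, zero_mul]
    · congr 1
      refine Finset.prod_congr rfl fun v hv => ?_
      simp only [f']
      rw [if_neg]
      exact fun h0 => h ⟨v, hv, h0⟩
  choose b hb1 hb2 using fun u => exists_pad c (V u) (hV u) f'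
  refine ⟨N, M, f', a', b, hf', ha', ?_, ?_⟩
  · intro u l
    rcases hb1 u l with h | ⟨v, h⟩
    · rw [h]
      exact ⟨h1f, one_ne_zero⟩
    · rw [h]
      exact ⟨hf' v, hf0 v⟩
  · simp only [hb2]
    rw [Finset.sum_mul, Finset.mul_sum]
    refine Finset.sum_congr rfl fun u _ => ?_
    rw [hterm u]
    have h1 : ∏ v, f' v = (∏ v ∈ V u, f' v) * ∏ v ∈ (V u)ᶜ, f' v :=
      (Finset.prod_mul_prod_compl _ _).symm
    have h2 : ∏ t, ∏ v ∈ V t, f' v =
        (∏ v ∈ V u, f' v) * ∏ t' ∈ Finset.univ.erase u, ∏ v ∈ V t', f' v :=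
      (Finset.mul_prod_erase _ _ (Finset.mem_univ u)).symm
    rw [h1, h2]
    ring

/-- A product is a cluster. -/
theorem clG_prod (c n N : ℕ) (G : Finset ℕ) (f : Fin N → MvPolynomial ℕ E)
    (hf : ∀ v, IsFormG c n G (f v)) :
    IsClG E c n G (∏ v, f v) := by
  have h1f : IsFormG c n G (1 : MvPolynomial ℕ E) := by
    have h := isFormG_const (c := c) (n := n) (G := G) (1 : E)
    rwa [map_one] at h
  refine ⟨N, 1, f, fun _ => 1, fun _ _ => 1, hf, ?_, fun _ _ => ⟨h1f, one_ne_zero⟩, ?_⟩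
  · intro t
    have h : (1 : MvPolynomial ℕ E) = C 1 := (map_one C).symm
    refine ⟨by simp, fun s hs => ?_⟩
    exact og_C (c := c) (G := G) (1 : E) s (by rw [map_one]; exact hs)
  · simp

/-- Sums of `k` products. -/
theorem pcG_sum (k c n : ℕ) (G : Finset ℕ) (e : Fin k → E) (N : Fin k → ℕ)
    (f : ∀ i : Fin k, Fin (N i) → MvPolynomial ℕ E)
    (hf : ∀ i v, IsFormG c n G (f i v)) :
    IsPCG E k c n G (∑ i, C (e i) * ∏ v, f i v) := by
  refine ⟨k, fun i => ∏ v, f i v, ∑ i, C (e i) * X i, fun i => clG_prod c n (N i) G (f i) (hf i),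
    fun s _ => ?_, ?_⟩
  · exact (Finset.card_le_univ s).trans (by simp)
  · rw [map_sum]
    refine Finset.sum_congr rfl fun i _ => ?_
    rw [map_mul, aeval_X, aeval_C]
    rfl

/-- Sums of `k` clusters of products. -/
theorem pcG_near (k c n : ℕ) (G : Finset ℕ)
    (N M : Fin k → ℕ)
    (f : ∀ i : Fin k, Fin (N i) → MvPolynomial ℕ E)
    (V : ∀ i : Fin k, Fin (M i) → Finset (Fin (N i)))
    (a : ∀ i : Fin k, Fin (M i) → MvPolynomial ℕ E)
    (hf : ∀ i v, IsFormG c n G (f i v))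
    (hV : ∀ i u, (V i u).card ≤ c)
    (ha : ∀ i u, (a i u).vars ⊆ Finset.range n ∧ ∀ s ∈ (a i u).support, (s.support \ G).card ≤ c) :
    IsPCG E k c n G (∑ i, ∑ u, a i u * ∏ v ∈ (V i u)ᶜ, f i v) := by
  refine ⟨k, fun i => ∑ u, a i u * ∏ v ∈ (V i u)ᶜ, f i v, ∑ i, X i,
    fun i => clG_near c n (N i) (M i) G (f i) (V i) (a i) (hf i) (hV i) (ha i),
    fun s _ => ?_, ?_⟩
  · exact (Finset.card_le_univ s).trans (by simp)
  · rw [map_sum]
    refine Finset.sum_congr rfl fun i _ => ?_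
    rw [aeval_X]


/-- The hitting set for the class with hub variables. -/
theorem hitG (thx : ThxStmt) (k c : ℕ) : ∃ t0 : ℕ,
    ∀ (E : Type) [Field E] [CharZero E] (n t : ℕ), t0 ≤ t → ∀ F : MvPolynomial ℕ E,
      (∃ G : Finset ℕ, G.card ≤ c ∧ IsPCG E k c n G F) → F ≠ 0 →
        ∃ w z : Fin t → E, eval (Pool.Agent.UO.point n w z) F ≠ 0 := by
  obtain ⟨t0, ht0⟩ := hit thx k c
  obtain ⟨t1, ht1⟩ := H58.hub k c ⟨t0, fun E _ _ n t ht F hF hF0 =>
    ht0 E n t ht F (isPC_of hF) hF0⟩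
  refine ⟨t1, fun E _ _ n t ht F hF hF0 => ?_⟩
  obtain ⟨G, hG, hFG⟩ := hF
  exact ht1 E n t ht F G hG hFG hF0 fun i hi => Finset.mem_range.2 (pcG_vars hFG i hi)

end Pool.Agent.PX.H82
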